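import Mathlib
import Pool.Agent.R605.GroupJump

namespace Pool.Agent.Results.MP_9b97c3_lc.IteratedJumpNotSingle

open Pool.Agent.R605.GroupJump

/-- For all infinite countable groups `G`, `H` and every smooth equivalence relation `E` with at
least two classes on a Polish space, there is no countable group `K` for which the iterated jump
`(E^[G])^[H]` is Borel bi-reducible with the single jump `E^[K]`; in fact the iterated jump is not
even Borel reducible to `E^[K]`. -/
theorem result :
    ∀ (G : Type) [Group G] [Countable G] [Infinite G]
      (H : Type) [Group H] [Countable H] [Infinite H]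
      (X : Type) [TopologicalSpace X] [PolishSpace X]
      (E : X → X → Prop), Equivalence E → Smooth E → (∃ a b, ¬ E a b) →
      ∀ (K : Type) [Group K] [Countable K],
        ¬ BorelReducible (Jump H (Jump G E)) (Jump K E) ∧
        ¬ BorelBireducible (Jump H (Jump G E)) (Jump K E) := by
  intro G _ _ _ H _ _ _ X _ _ E _ hE h2 K _ _
  exact ⟨no_reduction G H K E hE h2, fun h => no_reduction G H K E hE h2 h.1⟩

end Pool.Agent.Results.MP_9b97c3_lc.IteratedJumpNotSingle
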